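import Pool.Agent.H61.NVK.TargetsE3

/-!
# The central value along a line
-/

set_option autoImplicit false

open MeasureTheory Set Filter NumberField NumberField.InfinitePlace
open Pool.Agent.H65.CM4 Pool.Agent.H61.CM4 Pool.Agent.H61.NVK
open scoped Real nonZeroDivisors

namespace Pool.Agent.H49.NVE_HOZ

theorem pf_HOZ (hIXD : T_IXD) (hZCX : T_ZCX) : T_HOZ := by
  intro k _ _ _ η hη hη1
  obtain ⟨-, hn, hcard, -⟩ := hIXD k
  obtain ⟨h1, -, h3, C0, j0, hC0, h4⟩ := hZCX k
  set n := dg k with hnd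
  have hn' : (1 : ℝ) ≤ n := by exact_mod_cast hn
  set ρ : ℝ := η / (100 * n) with hρd
  have hρ : 0 < ρ := by positivity
  have hρn : ρ * n = η / 100 := by
    rw [hρd]
    field_simp
  have hρη : ρ ≤ η / 100 := by nlinarith
  refine ⟨ρ, C0 * (4 / η) ^ (n * j0), j0 + n * j0, hρ, by positivity, ?_⟩
  intro A f b p e Y hY hp he
  have hY0 : 0 < Y := by linarith
  have hYη : 0 < Y * η := by positivity
  let W : ℂ → Pl k → ℂ := fun s v => (Y : ℂ) * ((p v : ℂ) + s * (e v : ℂ))
  have hre : ∀ (s : ℂ) (v : Pl k), (W s v).re = Y * (p v + s.re * e v) := by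
    intro s v
    simp [W]
  have him : ∀ (s : ℂ) (v : Pl k), (W s v).im = Y * (s.im * e v) := by
    intro s v
    simp [W]
  have hball : ∀ s ∈ Metric.ball (0 : ℂ) ρ, |s.re| < ρ ∧ |s.im| < ρ ∧ ‖s‖ < ρ := by
    intro s hs
    rw [Metric.mem_ball, dist_zero_right] at hs
    exact ⟨(Complex.abs_re_le_norm s).trans_lt hs, (Complex.abs_im_le_norm s).trans_lt hs, hs⟩
  have hse : ∀ (x : ℝ) (v : Pl k), |x| < ρ → |x * e v| ≤ ρ := by
    intro x v hx
    rw [abs_mul]
    have := he v
    have h5 := abs_nonneg (e v)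
    have h6 := abs_nonneg x
    nlinarith
  have hlow : ∀ s ∈ Metric.ball (0 : ℂ) ρ, ∀ v, 99 / 100 * (Y * η) ≤ (W s v).re := by
    intro s hs v
    obtain ⟨h5, -, -⟩ := hball s hs
    have h6 := (abs_le.1 (hse s.re v h5)).1
    rw [hre]
    have h7 := (hp v).1
    have h8 : 99 / 100 * η ≤ p v + s.re * e v := by linarith
    nlinarith
  have hW : ∀ s ∈ Metric.ball (0 : ℂ) ρ, W s ∈ Sc k := by
    intro s hs v
    obtain ⟨-, h5, -⟩ := hball s hs
    have h6 := hse s.im v h5
    have h7 := hlow s hs v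
    refine ⟨by nlinarith, ?_⟩
    rw [lt_div_iff₀ (by positivity)]
    have h8 : |(W s v).im| ≤ Y * ρ := by
      rw [him, abs_mul, abs_of_pos hY0]
      exact mul_le_mul_of_nonneg_left h6 hY0.le
    calc |(W s v).im| * (40 * (n : ℝ)) ≤ Y * ρ * (40 * n) :=
          mul_le_mul_of_nonneg_right h8 (by positivity)
      _ = 40 / 100 * (Y * η) := by
          linear_combination (40 * Y) * hρn
      _ < (W s v).re := by nlinarith
  refine ⟨fun s => zc (A : Ideal (𝓞 k)) f b (W s), ?_, ?_, ?_⟩
  · refine h3 A f b (Metric.ball 0 ρ) W Metric.isOpen_ball ?_ hW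
    intro v
    refine Differentiable.differentiableOn ?_
    exact (differentiable_const _).mul
      ((differentiable_const _).add (differentiable_id.mul (differentiable_const _)))
  · intro s hs
    have h5 : W (s : ℂ) = fun v => ((Y * (p v + s * e v) : ℝ) : ℂ) := by
      funext v
      simp [W]
    show zc (A : Ideal (𝓞 k)) f b (W s) = _
    rw [h5]
    refine h1 A f b (fun v => Y * (p v + s * e v)) ?_
    intro v
    have h6 : (s : ℂ) ∈ Metric.ball (0 : ℂ) ρ := by
      rw [Metric.mem_ball, dist_zero_right, Complex.norm_real, Real.norm_eq_abs]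
      exact hs
    have h7 := hlow _ h6 v
    rw [hre, Complex.ofReal_re] at h7
    nlinarith
  · intro s hs
    have hA : 0 ≤ nm (A : Ideal (𝓞 k)) := Nat.cast_nonneg _
    have hf : 0 ≤ nm (f : Ideal (𝓞 k)) := Nat.cast_nonneg _
    refine (h4 A f b (W s) (hW s hs)).trans ?_
    have h5 : ∏ v, (‖W s v‖ + ‖W s v‖⁻¹) ≤ (4 / η * Y) ^ n := by
      rw [← hcard, ← Finset.card_univ, ← Finset.prod_const]
      refine Finset.prod_le_prod (fun v _ => by positivity) fun v _ => ?_
      have h6 := hlow s hs v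
      have h7 : (W s v).re ≤ ‖W s v‖ := Complex.re_le_norm _
      have h8 : ‖W s v‖ ≤ Y * (1 / η + 1) := by
        have h9 : ‖W s v‖ = Y * ‖(p v : ℂ) + s * (e v : ℂ)‖ := by
          show ‖(Y : ℂ) * ((p v : ℂ) + s * (e v : ℂ))‖ = _
          rw [norm_mul, Complex.norm_real, Real.norm_eq_abs, abs_of_pos hY0]
        rw [h9]
        refine mul_le_mul_of_nonneg_left ?_ hY0.le
        refine (norm_add_le _ _).trans ?_
        rw [norm_mul, Complex.norm_real, Complex.norm_real, Real.norm_eq_abs, Real.norm_eq_abs]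
        have h10 : |p v| ≤ 1 / η := by
          rw [abs_of_nonneg (by linarith [(hp v).1])]
          exact (hp v).2
        have h11 : ‖s‖ * |e v| ≤ 1 := by
          have h12 := (hball s hs).2.2
          have h13 := he v
          have h14 := abs_nonneg (e v)
          have h15 := norm_nonneg s
          nlinarith
        linarith
      have h9 : ‖W s v‖⁻¹ ≤ 2 / η := by
        rw [inv_eq_one_div, div_le_div_iff₀ (by nlinarith) hη]
        nlinarith
      have h10 : 1 ≤ 1 / η := by
        rw [le_div_iff₀ hη]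
        linarith
      have h11 : 2 / η = 2 * (1 / η) := by ring
      have h12 : 4 / η * Y = Y * (4 * (1 / η)) := by ring
      rw [h12]
      rw [h11] at h9
      nlinarith
    have h6 : 0 ≤ ∏ v, (‖W s v‖ + ‖W s v‖⁻¹) := Finset.prod_nonneg fun v _ => by positivity
    set T : ℝ := nm (A : Ideal (𝓞 k)) + nm (f : Ideal (𝓞 k)) + Y with hT
    calc C0 * (nm (A : Ideal (𝓞 k)) + nm (f : Ideal (𝓞 k))) ^ j0 *
          (∏ v, (‖W s v‖ + ‖W s v‖⁻¹)) ^ j0 ≤
        C0 * T ^ j0 * ((4 / η * T) ^ n) ^ j0 := by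
          refine mul_le_mul ?_ ?_ (by positivity) (by positivity)
          · refine mul_le_mul_of_nonneg_left ?_ hC0.le
            exact pow_le_pow_left₀ (by positivity) (by linarith) _
          · refine pow_le_pow_left₀ h6 (h5.trans ?_) _
            refine pow_le_pow_left₀ (by positivity) ?_ _
            refine mul_le_mul_of_nonneg_left ?_ (by positivity)
            linarith
      _ = C0 * (4 / η) ^ (n * j0) * T ^ (j0 + n * j0) := by
          rw [← pow_mul, mul_pow, pow_add]
          ring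

end Pool.Agent.H49.NVE_HOZ
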